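import Pool.Agent.Q201.UMExist

/-!
# Countable sets of coheirs do not test commutation of invariant types

The theory is that of a generic ultrametric space with values in a divisible ordered abelian group.
It is NIP and dp-minimal. There is a countable model `M` and a type `q` in two variables over `M`
such that for each countable set `Q` of coheirs of `q` there is an invariant type commuting with all
members of `Q`, but not with all coheirs of `q`.
-/

set_option autoImplicit false

namespace Pool.Agent.Results.MP_d4560b_lc.CountableTestSets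

open FirstOrder FirstOrder.Language Cardinal

universe u

section Definitions

/-- `T` is NIP: for each formula `φ(x; y)` there is `n` such that in no model of `T` a set of `n`
tuples is shattered by `φ`. -/
def NIP {L : FirstOrder.Language.{0, 0}} (T : L.Theory) : Prop :=
  ∀ (p q : ℕ) (φ : L.Formula (Fin p ⊕ Fin q)), ∃ n : ℕ, ∀ (N : Type u) [L.Structure N], N ⊨ T →
    ¬ ∃ (a : Fin n → Fin p → N) (b : Set (Fin n) → Fin q → N), ∀ i S,
      (φ.Realize (Sum.elim (a i) (b S)) ↔ i ∈ S)

/-- `T` has dp-rank `1` in one variable: its models are infinite, and there is no ICT-pattern of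
depth `2` in one variable, that is, there are no formulas `φ(x; y)`, `ψ(x; z)` with `x` a single
variable and parameters `a i`, `b i` (`i < ω`) in a model of `T` such that for all `i`, `j` the set
of formulas `φ(x; a i)`, `ψ(x; b j)`, `¬ φ(x; a l)` for `l ≠ i`, `¬ ψ(x; b l)` for `l ≠ j` is
consistent. -/
def DpMinimal {L : FirstOrder.Language.{0, 0}} (T : L.Theory) : Prop :=
  ∀ (N : Type u) [L.Structure N], N ⊨ T → Infinite N ∧
    ∀ (p q : ℕ) (φ : L.Formula (Fin 1 ⊕ Fin p)) (ψ : L.Formula (Fin 1 ⊕ Fin q))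
      (a : ℕ → Fin p → N) (b : ℕ → Fin q → N),
      ¬ ∀ i j k : ℕ, ∃ c : N, φ.Realize (Sum.elim (fun _ => c) (a i)) ∧
        ψ.Realize (Sum.elim (fun _ => c) (b j)) ∧
        ∀ l < k, (l ≠ i → ¬ φ.Realize (Sum.elim (fun _ => c) (a l))) ∧
          (l ≠ j → ¬ ψ.Realize (Sum.elim (fun _ => c) (b l)))

variable (L : FirstOrder.Language.{0, 0}) {U : Type u} [L.Structure U] {α β : Type}

/-- `U` is `κ`-saturated: a family of subsets of `U ^ n` definable over a set of fewer than `κ`
parameters has nonempty intersection if all its finite subfamilies have. -/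
def Saturated (κ : Cardinal.{u}) (U : Type u) [L.Structure U] : Prop :=
  ∀ A : Set U, #A < κ → ∀ (n : ℕ) (S : Set (Set (Fin n → U))), (∀ D ∈ S, A.Definable L D) →
    (∀ F : Finset (Set (Fin n → U)), (∀ D ∈ F, D ∈ S) → ∃ v, ∀ D ∈ F, v ∈ D) →
      ∃ v, ∀ D ∈ S, v ∈ D

/-- `p` is a complete type over `A` in the variables `α`: an ultrafilter of `A`-definable subsets
of `U ^ α`. -/
structure IsType (A : Set U) (p : Set (Set (α → U))) : Prop where
  definable : ∀ D ∈ p, A.Definable L D
  nonempty : ∀ D ∈ p, D.Nonempty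
  inter : ∀ D ∈ p, ∀ E ∈ p, D ∩ E ∈ p
  complete : ∀ D, A.Definable L D → D ∈ p ∨ Dᶜ ∈ p

/-- The global type `p` is `M`-invariant: it is fixed by each automorphism of `U` fixing `M`
pointwise. -/
def Invariant (M : Set U) (p : Set (Set (α → U))) : Prop :=
  ∀ σ : U ≃[L] U, (∀ a ∈ M, σ a = a) → ∀ D, D ∈ p ↔ {v : α → U | σ ∘ v ∈ D} ∈ p

/-- `q'` is a coheir of the type `q` over `M`: a global type extending `q` and finitely satisfiable
in `M`. -/
structure IsCoheir (M : Set U) (q q' : Set (Set (α → U))) : Prop where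
  isType : IsType L Set.univ q'
  extends_ : q ⊆ q'
  finsat : ∀ D ∈ q', ∃ v ∈ D, ∀ i, v i ∈ M

/-- The product of the `M`-invariant types `p` and `r`: a set `D` definable over the small set
`A ⊇ M` belongs to it if for a realisation `b` of `r` over `A`, the set `{a | (a, b) ∈ D}` belongs
to `p`. -/
def prodType (κ : Cardinal.{u}) (M : Set U) (p : Set (Set (α → U))) (r : Set (Set (β → U))) :
    Set (Set (α ⊕ β → U)) :=
  {D | ∃ A : Set U, M ⊆ A ∧ #A < κ ∧ A.Definable L D ∧
    ∃ b : β → U, (∀ E ∈ r, A.Definable L E → b ∈ E) ∧ {a | Sum.elim a b ∈ D} ∈ p}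

/-- `p` and `r` commute over `M`: the products in the two orders are the same. -/
def Commute (κ : Cardinal.{u}) (M : Set U) (p : Set (Set (α → U))) (r : Set (Set (β → U))) :
    Prop :=
  ∀ D, D ∈ prodType L κ M p r ↔ {v | v ∘ Sum.swap ∈ D} ∈ prodType L κ M r p

end Definitions

open Q201.UM Filter

section Limits

variable {L : FirstOrder.Language.{0, 0}} {U : Type u} [L.Structure U] {α β : Type}

/-- The global type given by an ultrafilter. -/
def lim (L : FirstOrder.Language.{0, 0}) {U : Type u} [L.Structure U] {α : Type}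
    (F : Ultrafilter (α → U)) : Set (Set (α → U)) :=
  {D | (Set.univ : Set U).Definable L D ∧ D ∈ F}

theorem lim_isType (F : Ultrafilter (α → U)) : IsType L Set.univ (lim L F) where
  definable := fun D hD => hD.1
  nonempty := fun D hD => Ultrafilter.nonempty_of_mem hD.2
  inter := fun D hD E hE => ⟨hD.1.inter hE.1, inter_mem hD.2 hE.2⟩
  complete := fun D hD => by
    rcases F.mem_or_compl_mem D with h | h
    · exact Or.inl ⟨hD, h⟩
    · exact Or.inr ⟨hD.compl, h⟩

theorem definable_auto (σ : U ≃[L] U) {D : Set (α → U)}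
    (hD : (Set.univ : Set U).Definable L D) :
    (Set.univ : Set U).Definable L {v : α → U | σ ∘ v ∈ D} := by
  rw [Set.definable_iff_exists_formula_sum] at hD ⊢
  obtain ⟨φ, rfl⟩ := hD
  let e : (Set.univ : Set U) ⊕ α → (Set.univ : Set U) ⊕ α :=
    Sum.map (fun a => ⟨σ.symm a, trivial⟩) id
  refine ⟨φ.relabel e, ?_⟩
  ext v
  simp only [Set.mem_ofPred_eq]
  rw [Formula.realize_relabel]
  have h := StrongHomClass.realize_formula (σ) φ (v := Sum.elim Subtype.val v ∘ e)
  rw [← h]
  apply iff_of_eq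
  congr 1
  funext i
  rcases i with a | i
  · simp [e]
  · simp [e]

theorem lim_invariant {M : Set U} {F : Ultrafilter (α → U)}
    (hF : ∀ᶠ v in (F : Filter (α → U)), ∀ i, v i ∈ M) : Invariant L M (lim L F) := by
  intro σ hσ D
  have h1 : (Set.univ : Set U).Definable L D ↔
      (Set.univ : Set U).Definable L {v : α → U | σ ∘ v ∈ D} := by
    refine ⟨definable_auto σ, fun h => ?_⟩
    have h2 := definable_auto σ.symm h
    convert h2 using 1
    ext v
    simp only [Set.mem_ofPred_eq]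
    apply iff_of_eq
    congr 1
    funext i
    simp
  have h2 : D ∈ F ↔ {v : α → U | σ ∘ v ∈ D} ∈ F := by
    have h3 : ∀ᶠ v in (F : Filter (α → U)), (v ∈ D ↔ σ ∘ v ∈ D) := by
      filter_upwards [hF] with v hv
      have : σ ∘ v = v := funext fun i => hσ _ (hv i)
      rw [this]
    constructor
    · intro h
      filter_upwards [h, h3] with v hv hv'
      exact hv'.mp hv
    · intro h
      filter_upwards [h, h3] with v hv hv'
      exact hv'.mpr hv
  exact and_congr h1 h2

/-- Coheirs are given by ultrafilters on the small model. -/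
theorem exists_ultra {M : Set U} {q q' : Set (Set (α → U))} (h : IsCoheir L M q q') :
    ∃ F : Ultrafilter (α → U), (∀ᶠ v in (F : Filter (α → U)), ∀ i, v i ∈ M) ∧ q' = lim L F := by
  have huniv : (Set.univ : Set (α → U)) ∈ q' := by
    rcases h.isType.complete Set.univ Set.definable_univ with h1 | h1
    · exact h1
    · rw [Set.compl_univ] at h1
      exact absurd (h.isType.nonempty _ h1) Set.not_nonempty_empty
  let 𝓕 : Filter (α → U) :=
    { sets := {X | ∃ D ∈ q', ∀ v ∈ D, (∀ i, v i ∈ M) → v ∈ X}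
      univ_sets := ⟨_, huniv, fun _ _ _ => trivial⟩
      sets_of_superset := by
        rintro X Y ⟨D, hD, h1⟩ hXY
        exact ⟨D, hD, fun v hv hv' => hXY (h1 v hv hv')⟩
      inter_sets := by
        rintro X Y ⟨D, hD, h1⟩ ⟨E, hE, h2⟩
        exact ⟨D ∩ E, h.isType.inter D hD E hE, fun v hv hv' => ⟨h1 v hv.1 hv', h2 v hv.2 hv'⟩⟩ }
  have hne : NeBot 𝓕 := by
    rw [neBot_iff, Ne, ← Filter.empty_mem_iff_bot]
    rintro ⟨D, hD, h1⟩
    obtain ⟨v, hv, hv'⟩ := h.finsat D hD
    exact h1 v hv hv'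
  have hle : ((Ultrafilter.of 𝓕 : Ultrafilter (α → U)) : Filter (α → U)) ≤ 𝓕 :=
    Ultrafilter.of_le 𝓕
  refine ⟨Ultrafilter.of 𝓕, hle ⟨_, huniv, fun v _ hv => hv⟩, ?_⟩
  have h1 : ∀ D ∈ q', D ∈ (Ultrafilter.of 𝓕 : Ultrafilter (α → U)) := fun D hD =>
    hle ⟨D, hD, fun v hv _ => hv⟩
  ext D
  constructor
  · intro hD
    exact ⟨h.isType.definable D hD, h1 D hD⟩
  · rintro ⟨hD, hD'⟩
    rcases h.isType.complete D hD with h2 | h2
    · exact h2
    · exact absurd hD' (Ultrafilter.compl_mem_iff_notMem.mp (h1 _ h2))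

theorem coheir_lim {M : Set U} {q : Set (Set (α → U))} {F : Ultrafilter (α → U)}
    (hF : ∀ᶠ v in (F : Filter (α → U)), ∀ i, v i ∈ M) (hq : q ⊆ lim L F) :
    IsCoheir L M q (lim L F) where
  isType := lim_isType F
  extends_ := hq
  finsat := fun D hD => by
    obtain ⟨v, hv1, hv2⟩ := ((show ∀ᶠ v in (F : Filter (α → U)), v ∈ D from hD.2).and hF).exists
    exact ⟨v, hv1, hv2⟩

theorem definable_fiber_left {A : Set U} {D : Set (α ⊕ β → U)} (hD : A.Definable L D)
    {a : α → U} (ha : ∀ i, a i ∈ A) : A.Definable L {b : β → U | Sum.elim a b ∈ D} := by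
  rw [Set.definable_iff_exists_formula_sum] at hD ⊢
  obtain ⟨φ, rfl⟩ := hD
  let e : A ⊕ (α ⊕ β) → A ⊕ β :=
    Sum.elim Sum.inl (Sum.elim (fun i => Sum.inl ⟨a i, ha i⟩) Sum.inr)
  refine ⟨φ.relabel e, ?_⟩
  ext v
  simp only [Set.mem_ofPred_eq]
  rw [Formula.realize_relabel]
  apply iff_of_eq
  congr 1
  funext i
  rcases i with i | i | i <;> rfl

theorem definable_fiber_right {A : Set U} {D : Set (α ⊕ β → U)} (hD : A.Definable L D)
    {b : β → U} (hb : ∀ i, b i ∈ A) : A.Definable L {a : α → U | Sum.elim a b ∈ D} := by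
  rw [Set.definable_iff_exists_formula_sum] at hD ⊢
  obtain ⟨φ, rfl⟩ := hD
  let e : A ⊕ (α ⊕ β) → A ⊕ α :=
    Sum.elim Sum.inl (Sum.elim Sum.inr (fun i => Sum.inl ⟨b i, hb i⟩))
  refine ⟨φ.relabel e, ?_⟩
  ext v
  simp only [Set.mem_ofPred_eq]
  rw [Formula.realize_relabel]
  apply iff_of_eq
  congr 1
  funext i
  rcases i with i | i | i <;> rfl

theorem definable_swap {A : Set U} {D : Set (α ⊕ β → U)} (hD : A.Definable L D) :
    A.Definable L {v : β ⊕ α → U | v ∘ Sum.swap ∈ D} :=
  hD.preimage_comp Sum.swap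

/-- The product of two types given by ultrafilters on the small model. -/
theorem mem_prod_lim {κ : Cardinal.{u}} (hκ : ℵ₀ < κ) (hU : Saturated L κ U) {M : Set U}
    (hM : M.Countable) {a b : ℕ} {F : Ultrafilter (Fin a → U)} {G : Ultrafilter (Fin b → U)}
    (hF : ∀ᶠ v in (F : Filter (Fin a → U)), ∀ i, v i ∈ M) (D : Set (Fin a ⊕ Fin b → U)) :
    D ∈ prodType L κ M (lim L F) (lim L G) ↔ (Set.univ : Set U).Definable L D ∧
      ∀ᶠ v in (F : Filter (Fin a → U)), ∀ᶠ w in (G : Filter (Fin b → U)), Sum.elim v w ∈ D := by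
  constructor
  · rintro ⟨A, hMA, hA, hD, w, hw, h⟩
    refine ⟨hD.mono (Set.subset_univ _), ?_⟩
    filter_upwards [show ∀ᶠ v in (F : Filter (Fin a → U)), Sum.elim v w ∈ D from h.2, hF]
      with v hv hvM
    have h1 : A.Definable L {w : Fin b → U | Sum.elim v w ∈ D} :=
      definable_fiber_left hD fun i => hMA (hvM i)
    by_contra hc
    have h2 : {w : Fin b → U | Sum.elim v w ∈ D}ᶜ ∈ G := Ultrafilter.compl_mem_iff_notMem.mpr hc
    exact hw _ ⟨h1.compl.mono (Set.subset_univ _), h2⟩ h1.compl hv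
  · rintro ⟨hD, h⟩
    obtain ⟨A0, hA0, hD0⟩ := Set.definable_iff_finitely_definable.mp hD
    have hAc : (M ∪ (A0 : Set U)).Countable := hM.union A0.countable_toSet
    have hcard : #(M ∪ (A0 : Set U) : Set U) < κ :=
      lt_of_le_of_lt (mk_le_aleph0_iff.mpr hAc.to_subtype) hκ
    obtain ⟨w, hw⟩ := hU (M ∪ (A0 : Set U)) hcard b
      {E | (M ∪ (A0 : Set U)).Definable L E ∧ E ∈ G} (fun E hE => hE.1) (fun S hS => by
        have h1 : ∀ᶠ w in (G : Filter (Fin b → U)), ∀ D ∈ S, w ∈ D :=
          (Filter.eventually_all_finset S).mpr fun D hD => (hS D hD).2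
        exact h1.exists)
    refine ⟨M ∪ (A0 : Set U), Set.subset_union_left, hcard, hD0.mono Set.subset_union_right, w,
      fun E hE hE' => hw E ⟨hE', hE.2⟩, ?_, ?_⟩
    · exact definable_fiber_right hD fun _ => trivial
    · have h2 : ∀ᶠ v in (F : Filter (Fin a → U)), Sum.elim v w ∈ D := by
        filter_upwards [h, hF] with v hv hvM
        exact hw _ ⟨definable_fiber_left (hD0.mono Set.subset_union_right) fun i =>
          Set.mem_union_left _ (hvM i), hv⟩
      exact h2

theorem commute_lim {κ : Cardinal.{u}} (hκ : ℵ₀ < κ) (hU : Saturated L κ U) {M : Set U}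
    (hM : M.Countable) {a b : ℕ} {F : Ultrafilter (Fin a → U)} {G : Ultrafilter (Fin b → U)}
    (hF : ∀ᶠ v in (F : Filter (Fin a → U)), ∀ i, v i ∈ M)
    (hG : ∀ᶠ v in (G : Filter (Fin b → U)), ∀ i, v i ∈ M) :
    Commute L κ M (lim L F) (lim L G) ↔ ∀ D : Set (Fin a ⊕ Fin b → U),
      (Set.univ : Set U).Definable L D →
      ((∀ᶠ v in (F : Filter (Fin a → U)), ∀ᶠ w in (G : Filter (Fin b → U)), Sum.elim v w ∈ D) ↔
        ∀ᶠ w in (G : Filter (Fin b → U)), ∀ᶠ v in (F : Filter (Fin a → U)),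
          Sum.elim v w ∈ D) := by
  have e : ∀ (v : Fin a → U) (w : Fin b → U), Sum.elim w v ∘ Sum.swap = Sum.elim v w := by
    intro v w
    funext i
    rcases i with i | i <;> rfl
  have h1 : ∀ D : Set (Fin a ⊕ Fin b → U), {v | v ∘ Sum.swap ∈ D} ∈
      prodType L κ M (lim L G) (lim L F) ↔ (Set.univ : Set U).Definable L D ∧
      ∀ᶠ w in (G : Filter (Fin b → U)), ∀ᶠ v in (F : Filter (Fin a → U)),
          Sum.elim v w ∈ D := by
    intro D
    rw [mem_prod_lim hκ hU hM hG]
    simp only [Set.mem_ofPred_eq, e]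
    refine and_congr ⟨fun h => ?_, definable_swap⟩ Iff.rfl
    have h2 := definable_swap h
    convert h2 using 1
    ext v
    simp only [Set.mem_ofPred_eq]
    apply iff_of_eq
    congr 1
    funext i
    rcases i with i | i <;> rfl
  constructor
  · intro h D hD
    have h2 := h D
    rw [mem_prod_lim hκ hU hM hF, h1] at h2
    exact ⟨fun h3 => (h2.mp ⟨hD, h3⟩).2, fun h3 => (h2.mpr ⟨hD, h3⟩).2⟩
  · intro h D
    rw [mem_prod_lim hκ hU hM hF, h1]
    exact ⟨fun h3 => ⟨h3.1, (h D h3.1).mp h3.2⟩, fun h3 => ⟨h3.1, (h D h3.1).mpr h3.2⟩⟩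

end Limits

section Theory

theorem equiv_of_model {N : Type u} [Lu.Structure N] (h : N ⊨ T0) :
    @ElementarilyEquivalent Lu X0 N (umStructure d0) _ := by
  let _ := umStructure d0
  rw [elementarilyEquivalent_iff]
  intro φ
  constructor
  · intro hφ
    exact h.realize_of_mem φ hφ
  · intro hφ
    by_contra hc
    have h1 : N ⊨ φ.not := h.realize_of_mem φ.not (by
      change X0 ⊨ φ.not
      rw [Sentence.Realize, Formula.realize_not]
      exact hc)
    rw [Sentence.Realize, Formula.realize_not] at h1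
    exact h1 hφ

theorem div_rat : ∀ (m : ℤ), m ≠ 0 → ∀ g : ℚ, ∃ h : ℚ, m • h = g := by
  intro m hm g
  refine ⟨g / m, ?_⟩
  have : (m : ℚ) ≠ 0 := by exact_mod_cast hm
  rw [zsmul_eq_mul]
  field_simp

theorem nip0 : NIP.{u} T0 := by
  intro p q φ
  obtain ⟨n, hn⟩ := not_shatter div_rat generic0 φ
  refine ⟨n, fun N _ hN h => hn ?_⟩
  let _ := umStructure d0
  have e := equiv_of_model hN
  exact (Q200.NIPCount.shatters_transfer e φ n).mpr h

theorem infinite_of_model {N : Type u} [Lu.Structure N] (h : N ⊨ T0) : Infinite N := by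
  let _ := umStructure d0
  have e := equiv_of_model h
  have h1 : Infinite X0 := inferInstance
  exact e.infinite_iff.mp h1

theorem dp0 : DpMinimal.{u} T0 := by
  intro N _ hN
  refine ⟨infinite_of_model hN, ?_⟩
  have := infinite_of_model hN
  intro p q φ ψ a b h
  obtain ⟨W, Γ, _, _, _, _, d, hd, hdiv, ⟨j⟩⟩ := exists_embed N hN
  obtain ⟨n, hn⟩ := no_pattern hdiv hd φ ψ
  choose c hc1 hc2 hc3 using h
  have e : ∀ {k : ℕ} (x : N) (a : Fin k → N),
      (Sum.elim (fun _ => j x) (j ∘ a) : Fin 1 ⊕ Fin k → W) = j ∘ Sum.elim (fun _ => x) a := by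
    intro k x a
    funext i
    rcases i with i | i <;> rfl
  refine hn (fun k => j ∘ a k) (fun k => j ∘ b k) (fun i k => j (c i k n)) ?_
  intro i k l
  rw [e, e, map_form, map_form]
  constructor
  · constructor
    · intro h
      by_contra hne
      exact (hc3 i k n l l.2).1 (fun h => hne (Fin.ext h)) h
    · rintro rfl
      exact hc1 _ _ _
  · constructor
    · intro h
      by_contra hne
      exact (hc3 i k n l l.2).2 (fun h => hne (Fin.ext h)) h
    · rintro rfl
      exact hc2 _ _ _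

theorem complete0 : T0.IsComplete := by
  let _ := umStructure d0
  exact completeTheory.isComplete Lu X0

/-- Saturation for linear inequalities. -/
theorem sat_of {κ : Cardinal.{u}} (hκ : ℵ₀ < κ) {U : Type u} [Lu.Structure U]
    (hU : Saturated Lu κ U) {W Γ : Type u} [AddCommGroup Γ] [LinearOrder Γ]
    {d : W → W → Γ} (j : @ElementaryEmbedding Lu U W _ (umStructure d)) : Sat (dl j) := by
  intro w l h
  have hcard : #(Set.range w) < κ :=
    lt_of_le_of_lt (mk_le_aleph0_iff.mpr (Set.countable_range w).to_subtype) hκ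
  let D : ℕ → Set (Fin 1 → U) := fun i => {v | 0 < evd (dl j) (l i) (ext1 w (v 0))}
  have hD : ∀ i, (Set.range w).Definable Lu (D i) := by
    intro i
    rw [Set.definable_iff_exists_formula_sum]
    let e : Option ℕ → Set.range w ⊕ Fin 1 := fun o =>
      o.elim (Sum.inr 0) (fun n => Sum.inl ⟨w n, n, rfl⟩)
    refine ⟨(formF (l i)).relabel e, ?_⟩
    ext v
    simp only [D, Set.mem_ofPred_eq]
    rw [Formula.realize_relabel, realize_formF_U j]
    apply iff_of_eq
    congr 2
    funext o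
    rcases o with _ | n <;> rfl
  obtain ⟨v, hv⟩ := hU _ hcard 1 (Set.range D) (by
    rintro _ ⟨i, rfl⟩
    exact hD i) (fun F hF => by
      choose! f hf using hF
      obtain ⟨z, hz⟩ := h (F.sup f + 1)
      refine ⟨fun _ => z, fun E hE => ?_⟩
      rw [← hf E hE]
      exact hz _ (Nat.lt_succ_of_le (Finset.le_sup hE)))
  exact ⟨v 0, fun i => hv _ ⟨i, rfl⟩⟩

end Theory

section Main

/-- The kinds of variables of a formula with parameters. -/
def kind {U : Type u} : (Set.univ : Set U) ⊕ (Fin 1 ⊕ Fin 2) → Ctx.Kind U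
  | Sum.inl u => .c u
  | Sum.inr (Sum.inl _) => .x
  | Sum.inr (Sum.inr i) => if i = 0 then .y else .z

theorem kind_ev {U : Type u} (a : Fin 1 → U) (b : Fin 2 → U) :
    (fun i => (kind i).ev (a, b)) = Sum.elim Subtype.val (Sum.elim a b) := by
  funext i
  rcases i with u | i | i
  · rfl
  · fin_cases i
    rfl
  · fin_cases i <;> rfl

/-- The kinds of variables of a formula with parameters in `M`. -/
def kind2 {U : Type u} {M : Set U} : M ⊕ Fin 2 → Ctx.Kind2 U
  | Sum.inl u => .c u
  | Sum.inr i => if i = 0 then .y else .z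

theorem kind2_ev {U : Type u} {M : Set U} (b : Fin 2 → U) :
    (fun i => (kind2 (M := M) i).ev b) = Sum.elim Subtype.val b := by
  funext i
  rcases i with u | i
  · rfl
  · fin_cases i <;> rfl

theorem kind2_in {U : Type u} {M : Set U} (i : M ⊕ Fin 2) : (kind2 i).In M := by
  rcases i with u | i
  · exact u.2
  · fin_cases i <;> trivial

theorem definable_pos {U : Type u} [Lu.Structure U] {W Γ : Type u} [AddCommGroup Γ]
    [LinearOrder Γ] {d : W → W → Γ} (j : @ElementaryEmbedding Lu U W _ (umStructure d))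
    (A : Set U) {α : Type} (l : (A ⊕ α) × (A ⊕ α) →₀ ℤ) :
    A.Definable Lu {v : α → U | 0 < evd (dl j) l (Sum.elim Subtype.val v)} := by
  rw [Set.definable_iff_exists_formula_sum]
  refine ⟨formF l, ?_⟩
  ext v
  simp only [Set.mem_ofPred_eq]
  rw [realize_formF_U j]

/-- **Countable sets of coheirs do not suffice, even in dp-minimal theories.** There is a complete,
NIP, dp-minimal theory `T` such that in each `κ`-saturated model `U` of `T`, `κ > ℵ₀`, there are a
countable elementary submodel `M` and a type `q` over `M` with the following property: for each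
countable set `Q` of coheirs of `q` there is an `M`-invariant global type `p` which commutes over
`M` with all members of `Q` but not with all coheirs of `q`. -/
theorem result : ∃ (L : FirstOrder.Language.{0, 0}) (T : L.Theory), T.IsComplete ∧ NIP.{u} T ∧
    DpMinimal.{u} T ∧
    ∀ (κ : Cardinal.{u}) (U : Type u) [L.Structure U], ℵ₀ < κ → U ⊨ T → Saturated L κ U →
      ∃ (M : L.ElementarySubstructure U) (q : Set (Set (Fin 2 → U))),
        (M : Set U).Countable ∧ IsType L (M : Set U) q ∧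
        ∀ Q : Set (Set (Set (Fin 2 → U))), Q.Countable →
          (∀ q' ∈ Q, IsCoheir L (M : Set U) q q') →
          ∃ p : Set (Set (Fin 1 → U)), IsType L Set.univ p ∧ Invariant L (M : Set U) p ∧
            (∀ q' ∈ Q, Commute L κ (M : Set U) p q') ∧
            ∃ q', IsCoheir L (M : Set U) q q' ∧ ¬ Commute L κ (M : Set U) p q' := by
  classical
  refine ⟨Lu, T0, complete0, nip0, dp0, ?_⟩
  intro κ U _ hκ hT hU
  have hinf := infinite_of_model hT
  obtain ⟨W, Γ, _, _, _, _, d, hd, hdiv, ⟨j⟩⟩ := exists_embed U hT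
  obtain ⟨M, H, x, m, γ, r, hMc, C⟩ := exists_ctx j hd (sat_of hκ hU j)
  obtain ⟨F0, G0, _, hG0, _, _, _⟩ := C.exists_pair 0
  -- the type `q`
  let q : Set (Set (Fin 2 → U)) := {D | (M : Set U).Definable Lu D ∧ D ∈ G0}
  have hq : IsType Lu (M : Set U) q :=
    { definable := fun D hD => hD.1
      nonempty := fun D hD => Ultrafilter.nonempty_of_mem hD.2
      inter := fun D hD E hE => ⟨hD.1.inter hE.1, inter_mem hD.2 hE.2⟩
      complete := fun D hD => by
        rcases G0.mem_or_compl_mem D with h | h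
        · exact Or.inl ⟨hD, h⟩
        · exact Or.inr ⟨hD.compl, h⟩ }
  -- all the ultrafilters considered extend it
  have hdet : ∀ G : Ultrafilter (Fin 2 → U), ToQ (dl j) (M : Set U) H m γ G → q ⊆ lim Lu G := by
    rintro G hG D ⟨hD, hD0⟩
    refine ⟨hD.mono (Set.subset_univ _), ?_⟩
    rw [Set.definable_iff_exists_formula_sum] at hD
    obtain ⟨φ, rfl⟩ := hD
    obtain ⟨E, Λ, hE⟩ := qeU j hdiv hd φ
    have h1 := C.det (fun v => φ.Realize v) E Λ hE (fun i => kind2_in i) hG0 hG
    simp only [kind2_ev] at h1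
    exact h1 hD0
  -- the coheirs of `q` are given by such ultrafilters
  have hco : ∀ q', IsCoheir Lu (M : Set U) q q' → ∃ G : Ultrafilter (Fin 2 → U),
      ToQ (dl j) (M : Set U) H m γ G ∧ q' = lim Lu G := by
    intro q' hq'
    obtain ⟨G, hG, rfl⟩ := exists_ultra hq'
    have key : ∀ l : ((M : Set U) ⊕ Fin 2) × ((M : Set U) ⊕ Fin 2) →₀ ℤ,
        (∀ᶠ v in (G0 : Filter (Fin 2 → U)), 0 < evd (dl j) l (Sum.elim Subtype.val v)) →
        ∀ᶠ v in (G : Filter (Fin 2 → U)), 0 < evd (dl j) l (Sum.elim Subtype.val v) := by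
      intro l hl
      exact (hq'.extends_ ⟨definable_pos j (M : Set U) l, hl⟩).2
    refine ⟨G, ⟨hG, ?_, ?_⟩, rfl⟩
    · intro c hc
      obtain ⟨y, hy, rfl⟩ := C.surj c hc
      let l : ((M : Set U) ⊕ Fin 2) × ((M : Set U) ⊕ Fin 2) →₀ ℤ :=
        Finsupp.single (Sum.inr 0, Sum.inl ⟨m 0, C.m0M⟩) 1 -
          Finsupp.single (Sum.inl ⟨y, hy⟩, Sum.inl ⟨m 0, C.m0M⟩) 1
      have hl : ∀ v : Fin 2 → U, evd (dl j) l (Sum.elim Subtype.val v) =
          dl j (v 0) (m 0) - dl j y (m 0) := by
        intro v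
        simp only [l]
        rw [evd_sub, evd_single, evd_single, one_smul, one_smul]
        rfl
      have h1 := key l
      simp only [hl, sub_pos] at h1
      exact h1 (hG0.big _ hc)
    · intro i
      let l : ((M : Set U) ⊕ Fin 2) × ((M : Set U) ⊕ Fin 2) →₀ ℤ :=
        Finsupp.single (Sum.inl ⟨m (i + 1), C.mM _⟩, Sum.inl ⟨m i, C.mM _⟩) 1 -
          Finsupp.single (Sum.inr 1, Sum.inl ⟨m (i + 1), C.mM _⟩) 1
      have hl : ∀ v : Fin 2 → U, evd (dl j) l (Sum.elim Subtype.val v) =
          dl j (m (i + 1)) (m i) - dl j (v 1) (m (i + 1)) := by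
        intro v
        simp only [l]
        rw [evd_sub, evd_single, evd_single, one_smul, one_smul]
        rfl
      have h1 := key l
      simp only [hl, sub_pos, C.mγ] at h1
      exact h1 (hG0.conv i)
  refine ⟨M, q, hMc, hq, fun Q hQ hQq => ?_⟩
  choose! G hG1 hG2 using fun q' (hq' : q' ∈ Q) => hco q' (hQq q' hq')
  -- a cut met by no member of `Q`
  have hbad : (⋃ q' ∈ Q, {s : ℝ | ∃ c2 c3, Ctx.Bad (dl j) x m r (G q') s c2 c3}).Countable :=
    hQ.biUnion fun q' _ => C.bad_countable (G q')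
  obtain ⟨s, hs⟩ : ∃ s : ℝ,
      s ∉ ⋃ q' ∈ Q, {s : ℝ | ∃ c2 c3, Ctx.Bad (dl j) x m r (G q') s c2 c3} := by
    by_contra hc
    push Not at hc
    have h1 : (⋃ q' ∈ Q, {s : ℝ | ∃ c2 c3, Ctx.Bad (dl j) x m r (G q') s c2 c3}) = Set.univ :=
      Set.eq_univ_of_forall hc
    rw [h1] at hbad
    exact Cardinal.not_countable_real hbad
  simp only [Set.mem_iUnion, not_exists] at hs
  obtain ⟨F, G', hF, hG', hFM, hlim1, hlim2⟩ := C.exists_pair s
  refine ⟨lim Lu F, lim_isType F, lim_invariant hFM, ?_, lim Lu G',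
    coheir_lim hG'.inM (hdet G' hG'), ?_⟩
  · intro q' hq'
    rw [hG2 q' hq']
    refine (commute_lim hκ hU hMc hFM (hG1 q' hq').inM).mpr fun D hD => ?_
    rw [Set.definable_iff_exists_formula_sum] at hD
    obtain ⟨φ, rfl⟩ := hD
    obtain ⟨E, Λ, hE⟩ := qeU j hdiv hd φ
    have h1 := (C.stable_all (hG1 q' hq') hF (fun c2 c3 h => hs q' hq' ⟨c2, c3, h⟩)
      (fun v => φ.Realize v) E Λ hE kind).comm
    simp only [kind_ev] at h1
    exact h1
  · intro hcomm
    rw [commute_lim hκ hU hMc hFM hG'.inM] at hcomm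
    let l : ((Set.univ : Set U) ⊕ (Fin 1 ⊕ Fin 2)) × ((Set.univ : Set U) ⊕ (Fin 1 ⊕ Fin 2)) →₀ ℤ :=
      Finsupp.single (Sum.inr (Sum.inr 0), Sum.inl ⟨m 0, trivial⟩) 1 +
        Finsupp.single (Sum.inr (Sum.inr 1), Sum.inl ⟨r, trivial⟩) 1 -
        Finsupp.single (Sum.inr (Sum.inl 0), Sum.inl ⟨m 0, trivial⟩) 1
    have hl : ∀ v : Fin 1 ⊕ Fin 2 → U, evd (dl j) l (Sum.elim Subtype.val v) =
        dl j (v (Sum.inr 0)) (m 0) + dl j (v (Sum.inr 1)) r - dl j (v (Sum.inl 0)) (m 0) := by
      intro v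
      simp only [l]
      rw [evd_sub, evd_add, evd_single, evd_single, evd_single, one_smul, one_smul, one_smul]
      rfl
    have h1 := hcomm _ (definable_pos j Set.univ l)
    simp only [Set.mem_ofPred_eq, hl, sub_pos, Sum.elim_inl, Sum.elim_inr] at h1
    have h2 := h1.mp hlim1
    obtain ⟨b, hb1, hb2⟩ := (h2.and hlim2).exists
    obtain ⟨a, ha1, ha2⟩ := (hb1.and hb2).exists
    exact ha2 ha1

end Main

end Pool.Agent.Results.MP_d4560b_lc.CountableTestSets
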